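import Pool.Agent.Helper46.NU.Goals1

set_option autoImplicit false

open scoped ENNReal

namespace NU.PkLB

theorem step (lbs : G_LBS) (S : Sys) (l : ℕ) (G : Finset S.C) :
    ∀ φ φ' : Ph S, (∀ p : S.C × ℕ, p.1 ∉ G ∨ l ≤ p.2 → φ p = φ' p) →
      ∀ K : Set (Pt S), MeasurableSet K →
      pr S φ' K ≤ (1 + 2 ^ (2 * l + 1)) ^ G.card * pr S φ K := by
  classical
  induction G using Finset.induction_on with
  | empty =>
    intro φ φ' h K _
    have : φ = φ' := funext fun p => h p (Or.inl (Finset.notMem_empty _))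
    rw [this]
    simp
  | insert c G hc ih =>
    intro φ φ' h K hK
    set ψ : Ph S := fun p => if p.1 = c then φ' p else φ p with hψ
    have h1 : pr S ψ K ≤ (1 + 2 ^ (2 * l + 1)) * pr S φ K := by
      apply lbs S c l φ ψ _ K hK
      intro p hp
      simp only [hψ]
      split_ifs with hpc
      · apply h p
        right
        by_contra hcon
        exact hp ⟨hpc, by omega⟩
      · rfl
    have h2 : pr S φ' K ≤ (1 + 2 ^ (2 * l + 1)) ^ G.card * pr S ψ K := by
      apply ih ψ φ' _ K hK
      intro p hp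
      simp only [hψ]
      split_ifs with hpc
      · rfl
      · apply h p
        rcases hp with hp | hp
        · left
          rw [Finset.mem_insert]
          rintro (h3 | h3)
          · exact hpc h3
          · exact hp h3
        · right; exact hp
    calc pr S φ' K ≤ (1 + 2 ^ (2 * l + 1)) ^ G.card * pr S ψ K := h2
      _ ≤ (1 + 2 ^ (2 * l + 1)) ^ G.card * ((1 + 2 ^ (2 * l + 1)) * pr S φ K) := by
        gcongr
      _ = (1 + 2 ^ (2 * l + 1)) ^ (insert c G).card * pr S φ K := by
        rw [Finset.card_insert_of_notMem hc, pow_succ (1 + 2 ^ (2 * l + 1) : ℝ≥0∞) G.card, mul_assoc]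

theorem lb (lbs : G_LBS) : G_LB := by
  classical
  intro S F
  obtain ⟨l, hl⟩ : ∃ l : ℕ, ∀ p ∈ F, p.2 < l := by
    refine ⟨F.sup Prod.snd + 1, ?_⟩
    intro p hp
    have := Finset.le_sup (f := Prod.snd) hp
    omega
  refine ⟨(1 + 2 ^ (2 * l + 1)) ^ (F.image Prod.fst).card, ?_, ?_⟩
  · apply ENNReal.pow_ne_top
    rw [ENNReal.add_ne_top]
    exact ⟨ENNReal.one_ne_top, ENNReal.pow_ne_top ENNReal.ofNat_ne_top⟩
  · intro φ φ' h K hK
    apply step lbs S l (F.image Prod.fst) φ φ' _ K hK
    intro p hp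
    apply h p
    intro hpF
    rcases hp with hp | hp
    · exact hp (Finset.mem_image_of_mem _ hpF)
    · exact absurd (hl p hpF) (by omega)

end NU.PkLB
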